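import Pool.Agent.TH116.BS.Main

/-!
# The Beilinson-Soulé vanishing conjecture is a statement on cohomological degree zero

The theorem is about a family of groups `H i n F`, for the extension fields `F` of a field `k`,
with embedding maps, products with symbols of units and residue maps (`FieldTheory`), such that the
residue at `t = 0` of `{t} · x` is `x` for all `x` which come from `F`.

It applies to the motivic cohomology `H i n F = H^i(F, ℤ(n))` (defined as the colimit over the
smooth models of `F`, for `F` finitely generated over a perfect field `k`), where the residue maps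
`H^{i+1}(F(t), ℤ(n+1)) → H^i(F, ℤ(n))` come from the localization sequence of Bloch's higher Chow
groups. By Voevodsky, over a perfect field `k` the cohomology sheaf of `ℤ(n)` in degree `i` on `Sm/k`
vanishes if and only if `H^i(F, ℤ(n)) = 0` for all finitely generated extension fields `F` of `k`.

Theorem. Let `k` be a field. Then the groups `H^i(F, ℤ(n))` vanish for all `i ≤ 0`, `n ≥ 1`, and all
finitely generated `F/k` if and only if they vanish for `i = 0`, `n ≥ 1` and all such `F`. More
precisely, for any class of extension fields closed under `F ↦ F(t)` and any integer `N`, vanishing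
for `i = 0` and `1 ≤ n ≤ N` is equivalent to vanishing for all `i ≤ 0` and `n ≥ 1` with `n - i ≤ N`.

So it suffices to prove the acyclicity of the motivic complexes `ℤ(n)` in degree `0`.
-/

set_option autoImplicit false

universe u v

namespace Pool.Agent.Results.MP_e2821c_ag.DegreeZeroSuffices

open Pool.Agent.TH116.BS

/-- For a family of groups `H i n F` (for the extension fields `F` of `k`) with symbols and residue
maps, vanishing for all `i ≤ 0` and `n ≥ 1` is equivalent to vanishing for `i = 0` and `n ≥ 1`. -/
theorem result {k : Type u} [Field k] (T : FieldTheory.{u, v} k) (hT : T.HasResidues) :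
    ((∀ n : ℤ, 1 ≤ n → ∀ F : Ext k, Algebra.EssFiniteType k F.carrier →
        Subsingleton (T.H 0 n F)) ↔
      (∀ i n : ℤ, i ≤ 0 → 1 ≤ n → ∀ F : Ext k, Algebra.EssFiniteType k F.carrier →
        Subsingleton (T.H i n F))) ∧
    (∀ P : Ext k → Prop, (∀ F : Ext k, P F → P F.ratFunc) → ∀ N : ℤ,
      ((∀ n : ℤ, 1 ≤ n → n ≤ N → ∀ F : Ext k, P F → Subsingleton (T.H 0 n F)) ↔
        (∀ i n : ℤ, i ≤ 0 → 1 ≤ n → n - i ≤ N → ∀ F : Ext k, P F →
          Subsingleton (T.H i n F)))) := by
  have key : ∀ P : Ext k → Prop, (∀ F : Ext k, P F → P F.ratFunc) → ∀ N : ℤ,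
      ((∀ n : ℤ, 1 ≤ n → n ≤ N → ∀ F : Ext k, P F → Subsingleton (T.H 0 n F)) ↔
        (∀ i n : ℤ, i ≤ 0 → 1 ≤ n → n - i ≤ N → ∀ F : Ext k, P F →
          Subsingleton (T.H i n F))) := by
    intro P hP N
    constructor
    · intro h i n hi hn hN F hF
      obtain ⟨m, hm⟩ := Int.eq_ofNat_of_zero_le (neg_nonneg.2 hi)
      have hi' : i = -(m : ℤ) := by omega
      subst hi'
      exact vanishing_of_degree_zero T hT P hP N h m n hn (by omega) F hF
    · intro h n hn hN F hF
      exact h 0 n le_rfl hn (by omega) F hF
  refine ⟨⟨?_, ?_⟩, key⟩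
  · intro h i n hi hn F hF
    have h2 := (key (fun F => Algebra.EssFiniteType k F.carrier)
      (fun F hF => by
        have : Algebra.EssFiniteType k F.carrier := hF
        exact essFiniteType_ratFunc F.carrier) (n - i)).1
      (fun n hn _ F hF => h n hn F hF)
    exact h2 i n hi hn le_rfl F hF
  · intro h n hn F hF
    exact h 0 n le_rfl hn F hF

end Pool.Agent.Results.MP_e2821c_ag.DegreeZeroSuffices
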